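import Pool.Agent.MP_fcd29e_an.H31.Spec3

/-!
The Fourier transform of test functions.
-/

set_option autoImplicit false

open MeasureTheory Complex Set Filter Topology Metric Pool.Agent.MP_fcd29e_an.H81
  Pool.Agent.MP_fcd29e_an.H31
open scoped ContDiff ComplexConjugate ENNReal NNReal FourierTransform SchwartzMap LineDeriv

namespace Pool.Agent.MP_fcd29e_an.H44

namespace FA3

variable {N : ℕ}

theorem n2_eq (f : 𝓢(E N, ℂ)) : N2 f = ENNReal.ofReal (∫ x, ‖f x‖ ^ 2) :=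
  (ofReal_integral_eq_lintegral_ofReal (f.memLp 2 volume).norm.integrable_sq
    (Eventually.of_forall fun _ => sq_nonneg _)).symm

theorem plan (f : 𝓢(E N, ℂ)) : N2 (𝓕 (f : E N → ℂ)) = N2 f := by
  rw [← SchwartzMap.fourier_coe, n2_eq, n2_eq, SchwartzMap.integral_norm_sq_fourier]

theorem line (f : 𝓢(E N, ℂ)) (m : E N) (hm : ‖m‖ = 1) (ξ : E N) :
    ‖(𝓕 (∂_{m} f) : 𝓢(E N, ℂ)) ξ‖ ≤ 7 * ‖ξ‖ * ‖𝓕 (f : E N → ℂ) ξ‖ := by
  have h : (inner ℝ · m).HasTemperateGrowth := ((innerSL ℝ).flip m).hasTemperateGrowth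
  rw [SchwartzMap.fourier_lineDerivOp_eq, smul_apply,
    SchwartzMap.smulLeftCLM_apply_apply h, norm_smul, norm_smul, SchwartzMap.fourier_coe,
    ← mul_assoc]
  refine mul_le_mul_of_nonneg_right (mul_le_mul ?_ ?_ (norm_nonneg _) (by norm_num))
    (norm_nonneg _)
  · simp only [norm_mul, norm_I, norm_real, Real.norm_eq_abs, abs_of_pos Real.pi_pos,
      Complex.norm_ofNat]
    linarith [Real.pi_lt_d2]
  · simpa [hm] using norm_inner_le_norm (𝕜 := ℝ) ξ m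

theorem comb (f : 𝓢(E N, ℂ)) (j : Fin N) (c : ℂ) (hc : ‖c‖ = 1) (ξ : E N) :
    ‖𝓕 (fun z => (fderiv ℝ f z (ee j) + c * fderiv ℝ f z (I • ee j)) / 2) ξ‖ ≤
      7 * ‖ξ‖ * ‖𝓕 (f : E N → ℂ) ξ‖ := by
  have e : (fun z => (fderiv ℝ f z (ee j) + c * fderiv ℝ f z (I • ee j)) / 2) =
      (((2 : ℂ)⁻¹ • (∂_{ee j} f + c • ∂_{I • ee j} f) : 𝓢(E N, ℂ)) : E N → ℂ) := by
    funext z
    simp only [smul_apply, add_apply,
      SchwartzMap.lineDerivOp_apply_eq_fderiv, smul_eq_mul]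
    ring
  have h1 : ‖ee j‖ = 1 := by simp [ee]
  have h2 := line f _ h1 ξ
  have h3 := line f (I • ee j) (by rw [norm_smul, h1, norm_I, one_mul]) ξ
  rw [e, ← SchwartzMap.fourier_coe, FourierTransform.fourier_smul, FourierTransform.fourier_add,
    FourierTransform.fourier_smul, smul_apply, add_apply,
    smul_apply, norm_smul]
  refine (mul_le_mul_of_nonneg_left (norm_add_le _ _) (norm_nonneg _)).trans ?_
  rw [norm_smul, hc, norm_inv, Complex.norm_ofNat]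
  linarith

theorem decay (f : 𝓢(E N, ℂ)) (M : ℕ) : ∃ C : ℝ, ∀ ξ, ‖f ξ‖ ≤ C / (1 + ‖ξ‖) ^ M := by
  have h := SchwartzMap.one_add_le_sup_seminorm_apply
    (𝕜 := ℝ) (m := (M, 0)) (k := M) (n := 0) le_rfl le_rfl f
  simp only [norm_iteratedFDeriv_zero] at h
  exact ⟨_, fun ξ => (le_div_iff₀' (by positivity)).2 (h ξ)⟩

theorem tst_fd {ψ : E N → ℂ} (h : Tst ψ) (v : E N) : Tst fun z => fderiv ℝ ψ z v :=
  ⟨contDiff_iff_contDiffAt.2 fun _ => contDiffAt_fderiv_apply h.1.contDiffAt v,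
    h.2.fderiv_apply ℝ v⟩

theorem tst_comb {f g : E N → ℂ} (hf : Tst f) (hg : Tst g) (c : ℂ) :
    Tst fun z => (f z + c * g z) / 2 :=
  ⟨(hf.1.add (contDiff_const.mul hg.1)).div_const 2,
    (hf.2.add (hg.2.mul_left (f := fun _ => c))).comp_left (g := fun w : ℂ => w / 2) (zero_div _)⟩

theorem dz_eq (ψ : E N → ℂ) (j : Fin N) :
    dz j ψ = fun z => (fderiv ℝ ψ z (ee j) + -I * fderiv ℝ ψ z (I • ee j)) / 2 := by
  funext z
  rw [dz, neg_mul, sub_eq_add_neg]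

theorem tst_smul {ψ : E N → ℂ} (h : Tst ψ) {c : ℂ} (hc : c ≠ 0) : Tst fun y => ψ (c • y) :=
  ⟨h.1.comp (contDiff_const_smul c), h.2.comp_homeomorph (Homeomorph.smulOfNeZero c hc)⟩

end FA3

open FA3 in
theorem fa (_ : Lv0) : StmtFA := by
  intro N ψ h
  have hp : N2 (𝓕 ψ) = N2 ψ := plan (h.2.toSchwartzMap h.1)
  refine ⟨hp, ?_, fun s hs => ?_, fun j ξ => ⟨?_, ?_⟩, decay (𝓕 (h.2.toSchwartzMap h.1)),
    fun j => ⟨?_, tst_comb (tst_fd h _) (tst_fd h _) I⟩, fun t ht => ⟨?_, ?_⟩, ?_,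
    fun c hc => tst_smul h hc, fun χ hχ => ⟨⟨hχ.1.mul h.1, h.2.mul_left⟩, hχ.1.add h.1,
      hχ.2.add h.2⟩⟩
  · exact (n2_eq (h.2.toSchwartzMap h.1)).trans_lt ENNReal.ofReal_lt_top
  · rw [← hp]
    refine lintegral_mono fun ξ => ENNReal.ofReal_le_ofReal (mul_le_of_le_one_left (sq_nonneg _) ?_)
    exact Real.rpow_le_one_of_one_le_of_nonpos (le_add_of_nonneg_right (sq_nonneg _)) (by linarith)
  · rw [dz_eq]
    exact comb (h.2.toSchwartzMap h.1) j (-I) (by simp) ξ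
  · exact comb (h.2.toSchwartzMap h.1) j I norm_I ξ
  · rw [dz_eq]
    exact tst_comb (tst_fd h _) (tst_fd h _) _
  · exact (h.1.comp (contDiff_const_smul t⁻¹)).div_const _
  · exact (h.2.comp_homeomorph (Homeomorph.smulOfNeZero t⁻¹ (inv_ne_zero ht.ne'))).comp_left
      (g := fun w : ℂ => w / (t ^ (2 * N) : ℝ)) (zero_div _)
  · exact ⟨h.1.comp contDiff_neg, h.2.comp_homeomorph (Homeomorph.neg _)⟩

end Pool.Agent.MP_fcd29e_an.H44
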