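import Pool.Agent.MP_fcd29e_an.H81.Spec

/-!
Sobolev spaces on cones: algebra, restriction and locality.
-/

set_option autoImplicit false

open Pool.Agent.MP_fcd29e_an.H81 MeasureTheory Complex Set Filter Topology Metric
open scoped ContDiff ComplexConjugate ENNReal NNReal

namespace Pool.Agent.MP_fcd29e_an.H44

variable {N : ℕ} {U : Set (E N)}

theorem sob_l2 {k : ℕ} {f : E N → ℂ} (h : Sob U k f) : L2 U f := by
  cases k with
  | zero => exact h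
  | succ k => exact h.1

section
variable (h1 : StmtT1) (hU : IsOpen U) (h0 : (0 : E N) ∉ U)
include h1 hU h0

theorem l2_congr {f g : E N → ℂ} (hf : L2 U f) (h : ∀ᵐ z, z ∈ U → f z = g z) : L2 U g :=
  ((h1 N U hU h0).1 f hf).2.2.2.2.2.1 g h

theorem l2_add {f g : E N → ℂ} (hf : L2 U f) (hg : L2 U g) : L2 U fun z => f z + g z :=
  (((h1 N U hU h0).1 f hf).2.2.2.1 g hg).1

theorem l2_mul {f s : E N → ℂ} (hf : L2 U f) (hs : ContinuousOn s (E0 N)) :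
    L2 U fun z => s z * f z :=
  ((h1 N U hU h0).1 f hf).2.2.2.2.1 s hs

theorem l2_mono {f : E N → ℂ} {V : Set (E N)} (hf : L2 U f) (hV : V ⊆ U) : L2 V f :=
  ((h1 N U hU h0).1 f hf).2.2.2.2.2.2 V hV

theorem l2_cont {f : E N → ℂ} (hf : ContinuousOn f (E0 N)) : L2 U f :=
  (h1 N U hU h0).2.2.1 f hf

theorem wd_smooth {f : E N → ℂ} (hf : ContDiffOn ℝ ∞ f U) (v : E N) :
    WD U v f fun z => fderiv ℝ f z v :=
  ((h1 N U hU h0).2.2.2.2.2.1 f hf).1 v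

theorem wd_mul {f g s : E N → ℂ} {v : E N} (hf : L2 U f) (hg : L2 U g)
    (hs : ContDiffOn ℝ ∞ s (E0 N)) (h : WD U v f g) :
    WD U v (fun z => s z * f z) fun z => s z * g z + fderiv ℝ s z v * f z :=
  ((h1 N U hU h0).2.2.2.2.2.2.1 f g hf hg s hs).1 v h

theorem wd_add {f g f' g' : E N → ℂ} {v : E N} (hf : L2 U f) (hg : L2 U g) (hf' : L2 U f')
    (hg' : L2 U g') (h : WD U v f g) (h' : WD U v f' g') :
    WD U v (fun z => f z + f' z) fun z => g z + g' z :=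
  (h1 N U hU h0).2.2.2.2.2.2.2.1 v f g f' g' hf hg hf' hg' h h'

theorem wd_congr {f g f' g' : E N → ℂ} {v : E N} (h : WD U v f g)
    (hf : ∀ᵐ z, z ∈ U → f z = f' z) (hg : ∀ᵐ z, z ∈ U → g z = g' z) : WD U v f' g' :=
  (h1 N U hU h0).2.2.2.2.2.2.2.2.1 v f g f' g' h hf hg

theorem wd_unique {f g g' : E N → ℂ} {v : E N} (hg : L2 U g) (hg' : L2 U g') (h : WD U v f g)
    (h' : WD U v f g') : ∀ᵐ z, z ∈ U → g z = g' z :=
  (h1 N U hU h0).2.2.2.2.2.2.2.2.2.1 v f g g' hg hg' h h'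

theorem wd_mono {f g : E N → ℂ} {v : E N} {V : Set (E N)} (hV : IsOpen V) (hVU : V ⊆ U)
    (h : WD U v f g) : WD V v f g :=
  (h1 N U hU h0).2.2.2.2.2.2.2.2.2.2.1 v f g V hV hVU h

theorem wb_of_wd {f g₁ g₂ : E N → ℂ} {j : Fin N} (hf : L2 U f) (hg₁ : L2 U g₁) (hg₂ : L2 U g₂)
    (h₁ : WD U (ee j) f g₁) (h₂ : WD U (I • ee j) f g₂) :
    WB U j f fun z => (g₁ z + I * g₂ z) / 2 :=
  (h1 N U hU h0).2.2.2.2.2.2.2.2.2.2.2 j f g₁ g₂ hf hg₁ hg₂ h₁ h₂

theorem sob_congr {k : ℕ} {f g : E N → ℂ} (hf : Sob U k f) (h : ∀ᵐ z, z ∈ U → f z = g z) :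
    Sob U k g := by
  cases k with
  | zero => exact l2_congr h1 hU h0 hf h
  | succ k =>
    refine ⟨l2_congr h1 hU h0 hf.1 h, fun v => ?_⟩
    obtain ⟨g', hw, hs⟩ := hf.2 v
    exact ⟨g', wd_congr h1 hU h0 hw h (Eventually.of_forall fun _ _ => rfl), hs⟩

theorem sob_add {k : ℕ} {f g : E N → ℂ} (hf : Sob U k f) (hg : Sob U k g) :
    Sob U k fun z => f z + g z := by
  induction k generalizing f g with
  | zero => exact l2_add h1 hU h0 hf hg
  | succ k ih =>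
    refine ⟨l2_add h1 hU h0 hf.1 hg.1, fun v => ?_⟩
    obtain ⟨f', hw, hs⟩ := hf.2 v
    obtain ⟨g', hw', hs'⟩ := hg.2 v
    exact ⟨_, wd_add h1 hU h0 hf.1 (sob_l2 hs) hg.1 (sob_l2 hs') hw hw', ih hs hs'⟩

omit h1 hU h0 in
theorem sob_pred {k : ℕ} {f : E N → ℂ} (hf : Sob U (k + 1) f) : Sob U k f := by
  induction k generalizing f with
  | zero => exact hf.1
  | succ k ih =>
    refine ⟨hf.1, fun v => ?_⟩
    obtain ⟨g, hw, hs⟩ := hf.2 v
    exact ⟨g, hw, ih hs⟩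

omit h1 hU h0 in
theorem sob_le {k i : ℕ} {f : E N → ℂ} (hf : Sob U k f) (hi : i ≤ k) : Sob U i f := by
  induction hi with
  | refl => exact hf
  | step _ ih => exact ih (sob_pred hf)

omit h1 hU h0 in
theorem smooth_fderiv {s : E N → ℂ} (hs : ContDiffOn ℝ ∞ s (E0 N)) (v : E N) :
    ContDiffOn ℝ ∞ (fun z => fderiv ℝ s z v) (E0 N) := fun _ hz =>
  (contDiffAt_fderiv_apply (hs.contDiffAt (isOpen_E0.mem_nhds hz)) v).contDiffWithinAt

theorem sob_mul {k : ℕ} {f s : E N → ℂ} (hf : Sob U k f) (hs : ContDiffOn ℝ ∞ s (E0 N)) :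
    Sob U k fun z => s z * f z := by
  induction k generalizing f s with
  | zero => exact l2_mul h1 hU h0 hf hs.continuousOn
  | succ k ih =>
    refine ⟨l2_mul h1 hU h0 hf.1 hs.continuousOn, fun v => ?_⟩
    obtain ⟨g, hw, hg⟩ := hf.2 v
    exact ⟨_, wd_mul h1 hU h0 hf.1 (sob_l2 hg) hs hw,
      sob_add h1 hU h0 (ih hg hs) (ih (sob_pred hf) (smooth_fderiv hs v))⟩

theorem sob_sub {k : ℕ} {f g : E N → ℂ} (hf : Sob U k f) (hg : Sob U k g) :
    Sob U k fun z => f z - g z := by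
  have h := sob_add h1 hU h0 hf
    (sob_mul h1 hU h0 (s := fun _ => (-1 : ℂ)) hg contDiffOn_const)
  refine sob_congr h1 hU h0 h (Eventually.of_forall fun z _ => ?_)
  ring

theorem sob_mono {k : ℕ} {f : E N → ℂ} {V : Set (E N)} (hf : Sob U k f) (hV : IsOpen V)
    (hVU : V ⊆ U) : Sob V k f := by
  induction k generalizing f with
  | zero => exact l2_mono h1 hU h0 hf hVU
  | succ k ih =>
    refine ⟨l2_mono h1 hU h0 hf.1 hVU, fun v => ?_⟩
    obtain ⟨g, hw, hg⟩ := hf.2 v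
    exact ⟨g, wd_mono h1 hU h0 hV hVU hw, ih hg⟩

theorem sob_smooth {k : ℕ} {f : E N → ℂ} (hf : ContDiffOn ℝ ∞ f (E0 N)) : Sob U k f := by
  induction k generalizing f with
  | zero => exact l2_cont h1 hU h0 hf.continuousOn
  | succ k ih =>
    refine ⟨l2_cont h1 hU h0 hf.continuousOn, fun v => ⟨_, wd_smooth h1 hU h0 (hf.mono ?_) v,
      ih (smooth_fderiv hf v)⟩⟩
    intro z hz hz0
    exact h0 (hz0 ▸ hz)

theorem sob_sum {k : ℕ} {ι : Type} (s : Finset ι) (F : ι → E N → ℂ)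
    (hF : ∀ i ∈ s, Sob U k (F i)) : Sob U k fun z => ∑ i ∈ s, F i z := by
  classical
  induction s using Finset.induction_on with
  | empty => simpa using sob_smooth h1 hU h0 (k := k) (f := fun _ => (0 : ℂ)) contDiffOn_const
  | insert a s ha ih =>
    simp only [Finset.sum_insert ha]
    exact sob_add h1 hU h0 (hF a (Finset.mem_insert_self _ _))
      (ih fun i hi => hF i (Finset.mem_insert_of_mem hi))

theorem sob_wb {k : ℕ} {f : E N → ℂ} (j : Fin N) (hf : Sob U (k + 1) f) :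
    ∃ g, WB U j f g ∧ Sob U k g := by
  obtain ⟨g₁, hw₁, hs₁⟩ := hf.2 (ee j)
  obtain ⟨g₂, hw₂, hs₂⟩ := hf.2 (I • ee j)
  refine ⟨_, wb_of_wd h1 hU h0 hf.1 (sob_l2 hs₁) (sob_l2 hs₂) hw₁ hw₂, ?_⟩
  have h := sob_add h1 hU h0
    (sob_mul h1 hU h0 (s := fun _ => (1 / 2 : ℂ)) hs₁ contDiffOn_const)
    (sob_mul h1 hU h0 (s := fun _ => (I / 2 : ℂ)) hs₂ contDiffOn_const)
  refine sob_congr h1 hU h0 h (Eventually.of_forall fun z _ => ?_)
  ring

end

/-! ### Locality -/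

/-- The exterior of a ball. -/
def Ext (N : ℕ) (r : ℝ) : Set (E N) := {z : E N | r < ‖z‖}

theorem isOpen_ext (r : ℝ) : IsOpen (Ext N r) := isOpen_lt continuous_const continuous_norm

theorem zero_not_mem_ext {r : ℝ} (hr : 0 < r) : (0 : E N) ∉ Ext N r := by
  simp only [Ext, mem_ofPred_eq, norm_zero, not_lt]; exact hr.le

theorem ext_mono {r s : ℝ} (h : r ≤ s) : Ext N s ⊆ Ext N r := fun _ hz => lt_of_le_of_lt h hz

theorem ext_sub {r : ℝ} (hr : 0 < r) : Ext N r ⊆ E0 N := by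
  intro z hz hz0
  exact zero_not_mem_ext hr (hz0 ▸ hz)

theorem compact_sub_ext {K : Set (E N)} (hK : IsCompact K) (h0 : (0 : E N) ∉ K) :
    ∃ r > 0, K ⊆ Ext N r := by
  obtain ⟨ε, hε, hb⟩ := Metric.isOpen_iff.1 hK.isClosed.isOpen_compl 0 h0
  refine ⟨ε / 2, by positivity, fun z hz => ?_⟩
  by_contra hn
  have h2 : ‖z‖ ≤ ε / 2 := not_lt.1 hn
  exact hb (mem_ball_zero_iff.2 (by linarith)) hz

theorem l2_local {f : E N → ℂ} (h : ∀ r > 0, L2 (Ext N r) f) : L2 (E0 N) f := by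
  intro K hK h0
  obtain ⟨r, hr, hKr⟩ := compact_sub_ext hK h0
  have h2 := h r hr K hK h0
  rw [inter_eq_right.2 hKr] at h2
  rwa [inter_eq_right.2 (hKr.trans (ext_sub hr))]

theorem wd_local {f g : E N → ℂ} {v : E N} (h : ∀ r > 0, WD (Ext N r) v f g) :
    WD (E0 N) v f g := by
  intro ψ hψ
  obtain ⟨r, hr, hKr⟩ := compact_sub_ext (K := tsupport ψ) hψ.2.1 fun h0 => hψ.2.2 h0 rfl
  have h2 := h r hr ψ ⟨hψ.1, hψ.2.1, hKr⟩
  have e : ∀ F : E N → ℂ, (∀ z, z ∉ tsupport ψ → F z = 0) →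
      ∫ z in E0 N, F z = ∫ z in Ext N r, F z := fun F hF => by
    rw [setIntegral_eq_integral_of_forall_compl_eq_zero fun z hz => hF z fun h' => hz (hψ.2.2 h'),
      setIntegral_eq_integral_of_forall_compl_eq_zero fun z hz => hF z fun h' => hz (hKr h')]
  rw [e, e, h2]
  · intro z hz
    rw [image_eq_zero_of_notMem_tsupport hz, mul_zero]
  · intro z hz
    have : fderiv ℝ ψ z = 0 := by
      by_contra hne
      exact hz (support_fderiv_subset ℝ hne)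
    simp [this]

theorem sob_local (h1 : StmtT1) (k : ℕ) (f : E N → ℂ) (h : ∀ r > 0, Sob (Ext N r) k f) :
    Sob (E0 N) k f := by
  induction k generalizing f with
  | zero => exact l2_local h
  | succ k ih =>
    refine ⟨l2_local fun r hr => (h r hr).1, fun v => ?_⟩
    have hp : ∀ n : ℕ, (0 : ℝ) < 1 / ((n : ℝ) + 1) := fun n => Nat.one_div_pos_of_nat
    choose G hGw hGs using fun n : ℕ => (h _ (hp n)).2 v
    have hle : ∀ {m n : ℕ}, m ≤ n → Ext N (1 / ((m : ℝ) + 1)) ⊆ Ext N (1 / ((n : ℝ) + 1)) :=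
      fun hmn => ext_mono (Nat.one_div_le_one_div hmn)
    have huniq : ∀ m n : ℕ, m ≤ n → ∀ᵐ z, z ∈ Ext N (1 / ((m : ℝ) + 1)) → G m z = G n z := by
      intro m n hmn
      exact wd_unique h1 (isOpen_ext _) (zero_not_mem_ext (hp m)) (sob_l2 (hGs m))
        (l2_mono h1 (isOpen_ext _) (zero_not_mem_ext (hp n)) (sob_l2 (hGs n)) (hle hmn)) (hGw m)
        (wd_mono h1 (isOpen_ext _) (zero_not_mem_ext (hp n)) (isOpen_ext _) (hle hmn) (hGw n))
    have hall : ∀ᵐ z, ∀ m n : ℕ, m ≤ n → z ∈ Ext N (1 / ((m : ℝ) + 1)) → G m z = G n z := by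
      refine ae_all_iff.2 fun m => ae_all_iff.2 fun n => ?_
      by_cases hmn : m ≤ n
      · filter_upwards [huniq m n hmn] with z hz _ using hz
      · exact Eventually.of_forall fun z h' => absurd h' hmn
    have hidx : ∀ z : E N, z ≠ 0 → z ∈ Ext N (1 / ((⌈1 / ‖z‖⌉₊ : ℝ) + 1)) := by
      intro z hz
      have hz' : 0 < ‖z‖ := norm_pos_iff.2 hz
      have h3 : 1 / ‖z‖ ≤ (⌈1 / ‖z‖⌉₊ : ℝ) := Nat.le_ceil _
      show 1 / ((⌈1 / ‖z‖⌉₊ : ℝ) + 1) < ‖z‖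
      rw [div_lt_iff₀ (by positivity)]
      rw [div_le_iff₀ hz'] at h3
      nlinarith
    have hg : ∀ m : ℕ, ∀ᵐ z, z ∈ Ext N (1 / ((m : ℝ) + 1)) → G m z = G ⌈1 / ‖z‖⌉₊ z := by
      intro m
      filter_upwards [hall] with z hz hm
      rcases le_total m ⌈1 / ‖z‖⌉₊ with h' | h'
      · exact hz _ _ h' hm
      · exact (hz _ _ h' (hidx z (ext_sub (hp m) hm))).symm
    have hsub : ∀ r > 0, ∃ m : ℕ, Ext N r ⊆ Ext N (1 / ((m : ℝ) + 1)) := fun r hr =>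
      (exists_nat_one_div_lt hr).imp fun m hm => ext_mono hm.le
    refine ⟨fun z => G ⌈1 / ‖z‖⌉₊ z, wd_local fun r hr => ?_, ih _ fun r hr => ?_⟩
    · obtain ⟨m, hm⟩ := hsub r hr
      exact wd_mono h1 (isOpen_ext _) (zero_not_mem_ext (hp m)) (isOpen_ext _) hm
        (wd_congr h1 (isOpen_ext _) (zero_not_mem_ext (hp m)) (hGw m)
          (Eventually.of_forall fun _ _ => rfl) (hg m))
    · obtain ⟨m, hm⟩ := hsub r hr
      exact sob_mono h1 (isOpen_ext _) (zero_not_mem_ext (hp m))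
        (sob_congr h1 (isOpen_ext _) (zero_not_mem_ext (hp m)) (hGs m) (hg m)) (isOpen_ext _) hm

theorem sb (h1 : StmtT1) : StmtSB := fun _ =>
  ⟨fun _ hU h0 _ =>
    ⟨fun _ hf => ⟨sob_l2 hf, fun _ h => sob_congr h1 hU h0 hf h,
      fun _ hg => ⟨sob_add h1 hU h0 hf hg, sob_sub h1 hU h0 hf hg⟩,
      fun _ hs => sob_mul h1 hU h0 hf hs, fun _ hV hVU => sob_mono h1 hU h0 hf hV hVU,
      fun _ hi => sob_le hf hi⟩,
    fun _ s F hF => sob_sum h1 hU h0 s F hF, fun _ hf => sob_smooth h1 hU h0 hf,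
    fun _ j hf => sob_wb h1 hU h0 j hf⟩,
  fun k f h => sob_local h1 k f h⟩

end Pool.Agent.MP_fcd29e_an.H44
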